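import Mathlib
import Pool.Agent.Helper291.RelFinal

set_option autoImplicit false

namespace Pool.Agent.Results.MP_91840b_co.LeastReliable

open Finset Pool.Agent.Helper291.RelCore Pool.Agent.Helper291.RelDense
  Pool.Agent.Helper291.RelFinal

open Classical in
/-- All-terminal reliability: the probability that the spanning subgraph formed by the operating
edges is connected, when each edge of `G` operates independently with probability `p`. -/
noncomputable def Rel {V : Type*} [Fintype V] (G : SimpleGraph V) (p : ℝ) : ℝ :=
  ∑ S ∈ G.edgeFinset.powerset,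
    if (SimpleGraph.fromEdgeSet (S : Set (Sym2 V))).Connected then
      p ^ S.card * (1 - p) ^ (G.edgeFinset.card - S.card) else 0

/-- The graph `L_{n,m}`, `m = s(s-1)/2 + k + (n-s-1)`, on the vertices `0,...,n-1`:
the vertices `0,...,s-1` form a complete graph, vertex `s` is joined to the vertices `0,...,k-1`,
and every vertex `j > s` is joined, among the smaller vertices, only to the vertex `f j`. -/
def L (n s k : ℕ) (f : ℕ → ℕ) : SimpleGraph (Fin n) where
  Adj i j := i ≠ j ∧ (max i.1 j.1 < s ∨ (max i.1 j.1 = s ∧ min i.1 j.1 < k) ∨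
    (s < max i.1 j.1 ∧ min i.1 j.1 = f (max i.1 j.1)))
  symm := ⟨fun i j h => by
    rw [max_comm j.1 i.1, min_comm j.1 i.1]
    exact ⟨h.1.symm, h.2⟩⟩
  loopless := ⟨fun _ h => h.1 rfl⟩

theorem L_eq (n s k : ℕ) (f : ℕ → ℕ) : L n s k f = Lg n s k f := rfl

theorem Rel_eq {V : Type*} [Fintype V] [DecidableEq V] (G : SimpleGraph V) (p : ℝ) :
    Rel G p = R (gw G p) := by
  classical
  unfold Rel R
  have hsub : G.edgeFinset.powerset ⊆ (univ : Finset (Finset (Sym2 V))) := fun _ _ => mem_univ _
  rw [← Finset.sum_subset hsub]
  · apply Finset.sum_congr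
    · rfl
    · intro S hS
      have hSE : S ⊆ G.edgeFinset := Finset.mem_powerset.1 hS
      have hprod : (∏ e, if e ∈ S then gw G p e else 1 - gw G p e) =
          p ^ S.card * (1 - p) ^ (G.edgeFinset.card - S.card) := by
        rw [← Finset.prod_sdiff (subset_univ G.edgeFinset), ← Finset.prod_sdiff hSE]
        have h1 : (∏ e ∈ univ \ G.edgeFinset, if e ∈ S then gw G p e else 1 - gw G p e) = 1 := by
          apply Finset.prod_eq_one
          intro e he
          rw [mem_sdiff] at he
          have he1 : e ∉ G.edgeSet := fun h => he.2 (SimpleGraph.mem_edgeFinset.2 h)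
          have he2 : e ∉ S := fun h => he.2 (hSE h)
          rw [if_neg he2]
          unfold gw
          rw [if_neg he1]; ring
        have h2 : (∏ e ∈ G.edgeFinset \ S, if e ∈ S then gw G p e else 1 - gw G p e) =
            (1 - p) ^ (G.edgeFinset.card - S.card) := by
          rw [← Finset.card_sdiff_of_subset hSE, ← Finset.prod_const]
          apply Finset.prod_congr rfl
          intro e he
          rw [mem_sdiff] at he
          rw [if_neg he.2]
          unfold gw
          rw [if_pos (SimpleGraph.mem_edgeFinset.1 he.1)]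
        have h3 : (∏ e ∈ S, if e ∈ S then gw G p e else 1 - gw G p e) = p ^ S.card := by
          rw [← Finset.prod_const]
          apply Finset.prod_congr rfl
          intro e he
          rw [if_pos he]
          unfold gw
          rw [if_pos (SimpleGraph.mem_edgeFinset.1 (hSE he))]
        rw [h1, h2, h3]; ring
      rw [hprod]
      unfold cn
      split_ifs <;> ring
  · intro S _ hS
    rw [Finset.mem_powerset] at hS
    obtain ⟨e, he1, he2⟩ := Finset.not_subset.1 hS
    rw [Finset.prod_eq_zero (mem_univ e), zero_mul]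
    rw [if_pos he1]
    unfold gw
    rw [if_neg (fun h => he2 (SimpleGraph.mem_edgeFinset.2 h))]

/-- Sanity: for all `n ≥ 2` and `n - 1 ≤ m ≤ n(n-1)/2` the parameters `s, k` exist. -/
theorem exists_params (n m : ℕ) (hn : 2 ≤ n) (h1 : n - 1 ≤ m) (h2 : m ≤ n.choose 2) :
    ∃ s k, 1 ≤ k ∧ k ≤ s ∧ s + 1 ≤ n ∧ m = s.choose 2 + k + (n - s - 1) := by
  have key : ∀ t, 1 ≤ t → t + 1 ≤ n → m ≤ t.choose 2 + t + (n - t - 1) →
      ∃ s k, 1 ≤ k ∧ k ≤ s ∧ s + 1 ≤ n ∧ m = s.choose 2 + k + (n - s - 1) := by
    intro t ht
    induction t, ht using Nat.le_induction with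
    | base =>
      intro h3 h4
      refine ⟨1, 1, le_rfl, le_rfl, h3, ?_⟩
      simp at h4 ⊢
      omega
    | succ t ht ih =>
      intro h3 h4
      by_cases h5 : m ≤ t.choose 2 + t + (n - t - 1)
      · exact ih (by omega) h5
      · have hch : (t + 1).choose 2 = t.choose 2 + t := by
          rw [Nat.choose_succ_succ' t 1, Nat.choose_one_right]; ring
        rw [hch] at h4
        refine ⟨t + 1, m - (t.choose 2 + t + (n - (t + 1) - 1)), ?_, ?_, h3, ?_⟩
        · omega
        · omega
        · rw [hch]; omega
  obtain ⟨r, rfl⟩ : ∃ r, n = r + 1 := ⟨n - 1, by omega⟩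
  apply key r (by omega) le_rfl
  have hch : (r + 1).choose 2 = r.choose 2 + r := by
    rw [Nat.choose_succ_succ' r 1, Nat.choose_one_right]; ring
  omega

/-- Sanity: `L n s k f` is connected. -/
theorem L_connected (n s k : ℕ) (hk : 1 ≤ k) (hks : k ≤ s) (hsn : s + 1 ≤ n) (f : ℕ → ℕ)
    (hf : ∀ j, s < j → j < n → f j < j) : (L n s k f).Connected := by
  have h0 : 0 < n := by omega
  have hr : ∀ (j : ℕ) (hj : j < n), (L n s k f).Reachable ⟨j, hj⟩ ⟨0, h0⟩ := by
    intro j
    induction j using Nat.strong_induction_on with
    | _ j ih =>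
      intro hj
      rcases Nat.eq_zero_or_pos j with rfl | hpos
      · exact SimpleGraph.Reachable.refl _
      · by_cases hjs : j ≤ s
        · apply SimpleGraph.Adj.reachable
          refine ⟨?_, ?_⟩
          · intro h; have := Fin.ext_iff.1 h; simp at this; omega
          · simp only [Nat.zero_le, max_eq_left, min_eq_right]
            omega
        · have hfj := hf j (by omega) hj
          have hadj : (L n s k f).Adj ⟨j, hj⟩ ⟨f j, by omega⟩ := by
            refine ⟨?_, Or.inr (Or.inr ?_)⟩
            · intro h; have := Fin.ext_iff.1 h; simp at this; omega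
            · simp only [max_eq_left hfj.le, min_eq_right hfj.le]
              exact ⟨by omega, trivial⟩
          exact hadj.reachable.trans (ih (f j) hfj (by omega))
  have : Nonempty (Fin n) := ⟨⟨0, h0⟩⟩
  exact SimpleGraph.Connected.mk (fun a b => (hr a.1 a.2).trans (hr b.1 b.2).symm)

/-- Sanity: `L n s k f` has `m = s(s-1)/2 + k + (n-s-1)` edges. -/
theorem L_edges (s k : ℕ) (_hk : 1 ≤ k) (hks : k ≤ s) (f : ℕ → ℕ) :
    ∀ n, s + 1 ≤ n → (∀ j, s < j → j < n → f j < j) →
      (L n s k f).edgeSet.ncard = s.choose 2 + k + (n - s - 1) := by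
  classical
  intro n hn
  induction n, hn using Nat.le_induction with
  | base =>
    intro _
    have hch : (s + 1).choose 2 = s.choose 2 + s := by
      rw [Nat.choose_succ_succ' s 1, Nat.choose_one_right]; ring
    have h1 := Pool.Agent.Helper291.RelMain.mt_card (L (s + 1) s k f)
    have h2 : (Pool.Agent.Helper291.RelMain.mt (L (s + 1) s k f)).card = s - k := by
      have : Pool.Agent.Helper291.RelMain.mt (L (s + 1) s k f) =
          ((Finset.Ico k s).attachFin (n := s + 1) (fun i hi => by
            have := (Finset.mem_Ico.1 hi).2; omega)).image (fun i => s(i, Fin.last s)) := by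
        rw [L_eq, Lg_dense]
        ext e
        induction e using Sym2.ind with
        | _ x y =>
          rw [Pool.Agent.Helper291.RelMain.mem_mt, starC_adj, mem_image]
          simp only [Finset.mem_attachFin, Finset.mem_Ico, mem_filter, mem_univ, true_and]
          constructor
          · rintro ⟨h1, h2⟩
            by_cases h3 : x = Fin.last s ∧ k ≤ y.1 ∧ y.1 < s
            · exact ⟨y, h3.2, by rw [h3.1, Sym2.eq_swap]⟩
            · by_cases h4 : y = Fin.last s ∧ k ≤ x.1 ∧ x.1 < s
              · exact ⟨x, h4.2, by rw [h4.1]⟩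
              · exact absurd ⟨h1, h3, h4⟩ h2
          · rintro ⟨i, hi, he⟩
            rcases Sym2.eq_iff.1 he with ⟨rfl, rfl⟩ | ⟨rfl, rfl⟩
            · refine ⟨?_, ?_⟩
              · intro h; have := Fin.ext_iff.1 h; simp at this; omega
              · rintro ⟨_, _, h⟩; exact h ⟨rfl, hi⟩
            · refine ⟨?_, ?_⟩
              · intro h; have := Fin.ext_iff.1 h; simp at this; omega
              · rintro ⟨_, h, _⟩; exact h ⟨rfl, hi⟩
      rw [this, Finset.card_image_of_injOn, Finset.card_attachFin, Nat.card_Ico]
      intro a _ b _ hab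
      simp only [] at hab
      rcases Sym2.eq_iff.1 hab with ⟨h, _⟩ | ⟨h1, h2⟩
      · exact h
      · exact h1.trans h2
    rw [Fintype.card_fin] at h1
    omega
  | succ m hm ih =>
    intro hf
    have ih' := ih (fun j h1 h2 => hf j h1 (by omega))
    have hfm := hf m (by omega) (by omega)
    have c1 := Pool.Agent.Helper291.RelMain.mt_card (L (m + 1) s k f)
    have c2 := Pool.Agent.Helper291.RelMain.mt_split (L (m + 1) s k f) (Fin.last m)
    have c3 := Pool.Agent.Helper291.RelMain.nn_nbs (L (m + 1) s k f) (Fin.last m)
    have c4 := ms_card (L (m + 1) s k f) (Fin.last m)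
    have c5 := Pool.Agent.Helper291.RelMain.mt_card (delV (L (m + 1) s k f) (Fin.last m))
    have hch : (m + 1).choose 2 = m.choose 2 + m := by
      rw [Nat.choose_succ_succ' m 1, Nat.choose_one_right]; ring
    have hcard : Fintype.card {w : Fin (m + 1) // w ≠ Fin.last m} = m := by
      have := card_sub (Fin.last m)
      rw [Fintype.card_fin] at this
      omega
    have hiso : (delV (L (m + 1) s k f) (Fin.last m)).edgeSet.ncard =
        (L m s k f).edgeSet.ncard := by
      have iso : L m s k f ≃g delV (L (m + 1) s k f) (Fin.last m) :=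
        { toEquiv := finSuccAboveEquiv (Fin.last m)
          map_rel_iff' := by
            intro a b
            rw [delV_adj, L_eq, L_eq, Lg_adj, Lg_adj]
            simp only [finSuccAboveEquiv_apply, Fin.succAbove_last]
            simp }
      rw [← Nat.card_coe_set_eq, ← Nat.card_coe_set_eq]
      exact (Nat.card_congr iso.mapEdgeSet).symm
    have hnb : (nbs (L (m + 1) s k f) (Fin.last m)).card = 1 := by
      have : nbs (L (m + 1) s k f) (Fin.last m) = {(⟨f m, by omega⟩ : Fin (m + 1))} := by
        ext w
        rw [mem_nbs, mem_singleton, L_eq, Lg_adj]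
        constructor
        · rintro ⟨h1, h⟩
          have hw : w.1 < m := by
            have := w.2
            have h3 : w.1 ≠ m := fun h => h1 (Fin.ext h).symm
            omega
          have e1 : max (Fin.last m).1 w.1 = m := by simp; omega
          have e2 : min (Fin.last m).1 w.1 = w.1 := by simp; omega
          rw [e1, e2] at h
          rcases h with h | h | h
          · omega
          · omega
          · exact Fin.ext h.2
        · rintro rfl
          refine ⟨?_, Or.inr (Or.inr ?_)⟩
          · intro h; have := Fin.ext_iff.1 h; simp at this; omega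
          · have h1 : max (Fin.last m).1 (f m) = m := by simp; omega
            have h2 : min (Fin.last m).1 (f m) = f m := by simp; omega
            simp only [h1, h2]
            exact ⟨by omega, trivial⟩
      rw [this, card_singleton]
    rw [Fintype.card_fin] at c1 c3
    rw [hcard] at c5
    rw [hiso, ih'] at c5
    rw [hnb] at c3
    omega

/-- **Least reliable graphs.** -/
theorem result (n s k : ℕ) (hk : 1 ≤ k) (hks : k ≤ s) (hsn : s + 1 ≤ n) (f : ℕ → ℕ)
    (hf : ∀ j, s < j → j < n → f j < j) {V : Type*} [Fintype V] (hV : Fintype.card V = n)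
    (G : SimpleGraph V) (hG : G.Connected)
    (hm : G.edgeSet.ncard = s.choose 2 + k + (n - s - 1)) (p : ℝ) (hp0 : 0 ≤ p) (hp1 : p ≤ 1) :
    Rel (L n s k f) p ≤ Rel G p := by
  classical
  rw [Rel_eq, Rel_eq, L_eq]
  exact main p hp0 hp1 f s k hk hks n hsn hf V G hV hG hm

end Pool.Agent.Results.MP_91840b_co.LeastReliable
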